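import Mathlib

set_option autoImplicit false

/-!
Project AE (helper74), piece ARG, part 1: the deterministic core (helper299).
-/

namespace Pool.Agent.Run7.h299.AE

open Filter MeasureTheory

theorem core {κ Z : ℝ → ℝ} {c M B E W P K₃ a b : ℝ} {ι : Type*} {A : Finset ι}
    {m : ι → ℝ} {g : ι → ℝ → ℝ} (hc : Continuous κ) (h0 : ∀ y, 0 ≤ κ y) (hi : Integrable κ)
    (h1 : ∫ y, κ y = 1) (hk : ∀ y, 1 / 8 ≤ |y| → κ y ≤ c / (1 + |y|) ^ 4)
    (hM : Integrable (fun y => κ y * |y|)) (hM' : ∫ y, κ y * |y| ≤ M)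
    (ha : a ≤ -(1 / 8)) (hb : 1 / 8 ≤ b) (hB : 0 ≤ B) (hP : 0 ≤ P)
    (hZ0 : |Z 0| ≤ B) (hZm : Measurable Z)
    (hZ : ∀ᵐ y : ℝ, y ∈ Set.Ioc a b → |Z y| ≤ B)
    (hm : ∀ s ∈ A, 0 ≤ m s) (hW : ∑ s ∈ A, m s ≤ W)
    (hg : ∀ s ∈ A, ∀ y, |g s y| ≤ P)
    (hs : ∀ s ∈ A, Integrable (fun y => κ y * g s y))
    (hE : 0 ≤ E)
    (hR : ∀ᵐ y : ℝ, |y| ≤ 1 / 8 → |Z 0 - Z y - ∑ s ∈ A, m s * g s y| ≤ E * |y|)
    (hi4 : Integrable (fun y : ℝ => 1 / (1 + |y|) ^ 4))
    (hK₃ : ∫ y : ℝ, 1 / (1 + |y|) ^ 4 ≤ K₃) (hc0 : 0 ≤ c) :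
    |Z 0 - (∫ y in a..b, κ y * Z y) - ∑ s ∈ A, m s * ∫ y, κ y * g s y|
      ≤ E * M + (2 * B + W * P) * (c * K₃) := by
  have hW0 : 0 ≤ W := (Finset.sum_nonneg hm).trans hW
  have hab : a ≤ b := by linarith
  -- the cut off function
  set S : Set ℝ := Set.Ioc a b with hS
  have hSm : MeasurableSet S := measurableSet_Ioc
  have hZi : Integrable (fun y => κ y * S.indicator Z y) := by
    refine (hi.mul_const B).mono' ?_ ?_
    · exact (hc.measurable.mul (hZm.indicator hSm)).aestronglyMeasurable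
    · filter_upwards [hZ] with y hy
      rw [Real.norm_eq_abs, abs_mul, abs_of_nonneg (h0 y)]
      apply mul_le_mul_of_nonneg_left _ (h0 y)
      by_cases hyS : y ∈ S
      · rw [Set.indicator_of_mem hyS]
        exact hy hyS
      · rw [Set.indicator_of_notMem hyS]
        simpa using hB
  have e1 : ∫ y in a..b, κ y * Z y = ∫ y, κ y * S.indicator Z y := by
    rw [intervalIntegral.integral_of_le hab, ← integral_indicator hSm]
    refine integral_congr_ae (Eventually.of_forall fun y => ?_)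
    by_cases hyS : y ∈ S
    · simp only [Set.indicator_of_mem hyS]
    · simp only [Set.indicator_of_notMem hyS, mul_zero]
  have hsum : Integrable (fun y => ∑ s ∈ A, m s * (κ y * g s y)) :=
    integrable_finsetSum _ fun s hsA => (hs s hsA).const_mul _
  have e2 : ∑ s ∈ A, m s * ∫ y, κ y * g s y = ∫ y, ∑ s ∈ A, m s * (κ y * g s y) := by
    rw [integral_finsetSum _ fun s hsA => (hs s hsA).const_mul _]
    exact Finset.sum_congr rfl fun s _ => (integral_const_mul _ _).symm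
  have e3 : Z 0 = ∫ y, κ y * Z 0 := by
    rw [integral_mul_const, h1, one_mul]
  have key : Z 0 - (∫ y in a..b, κ y * Z y) - ∑ s ∈ A, m s * ∫ y, κ y * g s y
      = ∫ y, κ y * (Z 0 - S.indicator Z y - ∑ s ∈ A, m s * g s y) := by
    rw [e1, e2]
    conv_lhs => rw [e3]
    have hsub : Integrable (fun y => κ y * Z 0 - κ y * S.indicator Z y) :=
      (hi.mul_const _).sub hZi
    rw [← integral_sub (hi.mul_const _) hZi, ← integral_sub hsub hsum]
    refine integral_congr_ae (Eventually.of_forall fun y => ?_)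
    simp only [mul_sub, Finset.mul_sum]
    congr 1
    refine Finset.sum_congr rfl fun s _ => ?_
    ring
  rw [key]
  have hbd : ∀ᵐ y : ℝ, ‖κ y * (Z 0 - S.indicator Z y - ∑ s ∈ A, m s * g s y)‖
      ≤ E * (κ y * |y|) + (2 * B + W * P) * (c * (1 / (1 + |y|) ^ 4)) := by
    filter_upwards [hZ, hR] with y hy1 hy2
    rw [Real.norm_eq_abs, abs_mul, abs_of_nonneg (h0 y)]
    have hq : 0 ≤ c * (1 / (1 + |y|) ^ 4) := by positivity
    have hq' : 0 ≤ (2 * B + W * P) := by positivity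
    by_cases hy : |y| < 1 / 8
    · have hyS : y ∈ S := by
        rw [abs_lt] at hy
        exact ⟨by linarith [hy.1], by linarith [hy.2]⟩
      rw [Set.indicator_of_mem hyS]
      have h2 := mul_le_mul_of_nonneg_left (hy2 hy.le) (h0 y)
      calc κ y * |Z 0 - Z y - ∑ s ∈ A, m s * g s y| ≤ κ y * (E * |y|) := h2
        _ = E * (κ y * |y|) := by ring
        _ ≤ _ := by linarith [mul_nonneg hq' hq]
    · push Not at hy
      have hz1 : |S.indicator Z y| ≤ B := by
        by_cases hyS : y ∈ S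
        · rw [Set.indicator_of_mem hyS]
          exact hy1 hyS
        · rw [Set.indicator_of_notMem hyS]
          simpa using hB
      have hz2 : |∑ s ∈ A, m s * g s y| ≤ W * P := by
        calc |∑ s ∈ A, m s * g s y| ≤ ∑ s ∈ A, |m s * g s y| := Finset.abs_sum_le_sum_abs _ _
          _ ≤ ∑ s ∈ A, m s * P := by
              refine Finset.sum_le_sum fun s hsA => ?_
              rw [abs_mul, abs_of_nonneg (hm s hsA)]
              exact mul_le_mul_of_nonneg_left (hg s hsA y) (hm s hsA)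
          _ = (∑ s ∈ A, m s) * P := (Finset.sum_mul _ _ _).symm
          _ ≤ W * P := mul_le_mul_of_nonneg_right hW hP
      have hz3 : |Z 0 - S.indicator Z y - ∑ s ∈ A, m s * g s y| ≤ 2 * B + W * P := by
        rw [abs_le] at hz1 hz2 hZ0 ⊢
        constructor
        · linarith [hz1.1, hz1.2, hz2.1, hz2.2, hZ0.1, hZ0.2]
        · linarith [hz1.1, hz1.2, hz2.1, hz2.2, hZ0.1, hZ0.2]
      have hkb : κ y ≤ c * (1 / (1 + |y|) ^ 4) := by
        rw [mul_one_div]
        exact hk y hy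
      calc κ y * |Z 0 - S.indicator Z y - ∑ s ∈ A, m s * g s y|
          ≤ (c * (1 / (1 + |y|) ^ 4)) * (2 * B + W * P) :=
            mul_le_mul hkb hz3 (abs_nonneg _) hq
        _ = (2 * B + W * P) * (c * (1 / (1 + |y|) ^ 4)) := by ring
        _ ≤ _ := by linarith [mul_nonneg hE (mul_nonneg (h0 y) (abs_nonneg y))]
  have hbi : Integrable (fun y => E * (κ y * |y|) +
      (2 * B + W * P) * (c * (1 / (1 + |y|) ^ 4))) :=
    (hM.const_mul E).add ((hi4.const_mul c).const_mul _)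
  have hfin := norm_integral_le_of_norm_le hbi hbd
  rw [Real.norm_eq_abs] at hfin
  refine hfin.trans ?_
  rw [integral_add (hM.const_mul E) ((hi4.const_mul c).const_mul _), integral_const_mul,
    integral_const_mul, integral_const_mul]
  have h5 : E * ∫ y, κ y * |y| ≤ E * M := mul_le_mul_of_nonneg_left hM' hE
  have h6 : (2 * B + W * P) * (c * ∫ y : ℝ, 1 / (1 + |y|) ^ 4) ≤ (2 * B + W * P) * (c * K₃) := by
    apply mul_le_mul_of_nonneg_left _ (by positivity)
    exact mul_le_mul_of_nonneg_left hK₃ hc0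
  linarith

end Pool.Agent.Run7.h299.AE
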