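import Pool.Agent.Run7.h74.AE.Iface
import Pool.Agent.Q149.UM.LOC1
import Pool.Agent.Q149.UM.DETQ
import Pool.Agent.Run7.h299.AE.ARG1

set_option autoImplicit false

/-!
Project AE (helper74), piece ARG: the pointwise bound for the argument (helper299).
-/

namespace Pool.Agent.Run7.h299.AE

open Pool.Agent.Q97.UM
open Pool.Agent.Run7.h74.AE
open Complex Filter Set MeasureTheory

noncomputable section

/-- ARG -/
theorem t_ARG : J_ARG := by
  intro hKB hVAV hLOC hLOCI hKLG haz ψ₁ k₀ hK δ hδ hδ8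
  classical
  obtain ⟨-, hki, hk1, -, hdec⟩ := hKB ψ₁ k₀ hK
  obtain ⟨C4, hC4, hb4, -⟩ := hdec 4
  obtain ⟨CV, hCV, hV⟩ := hVAV ψ₁ k₀ hK δ hδ hδ8
  obtain ⟨CL, hCL, hL⟩ := hLOC
  obtain ⟨CI, hCI, hI⟩ := hLOCI
  obtain ⟨CG, hCG, hG⟩ := hKLG ψ₁ k₀ hK
  have hM0 : 0 ≤ ∫ z, k₀ z * |z| :=
    integral_nonneg fun z => mul_nonneg (hK.nonneg z) (abs_nonneg z)
  have hK₃0 : 0 ≤ ∫ y : ℝ, 1 / (1 + |y|) ^ 4 := integral_nonneg fun y => by positivity
  have hpi := Real.pi_pos
  refine ⟨CV + (CI * (∫ z, k₀ z * |z|) / δ + (2 * CI + CL * (2 * Real.pi)) * (6561 * C4 *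
    (∫ y : ℝ, 1 / (1 + |y|) ^ 4)) / δ) + CG / δ ^ 2, by positivity, ?_⟩
  have hlog : ∀ᶠ T : ℝ in atTop, 1 / δ ≤ Real.log T :=
    Real.tendsto_log_atTop.eventually_ge_atTop _
  filter_upwards [hV, hL, hI, hlog, eventually_ge_atTop (100 : ℝ)] with T hVT hLT hIT hlT hT
    t ht1 ht2 hz
  have hTp : 0 < T := by linarith
  have hLp : 0 < Real.log T := Real.log_pos (by linarith)
  have hD1 : 1 ≤ δ * Real.log T := by
    rw [div_le_iff₀ hδ] at hlT
    linarith
  have hD0 : 0 < δ * Real.log T := by linarith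
  obtain ⟨D, hD⟩ : ∃ D : ℝ, D = δ * Real.log T := ⟨_, rfl⟩
  rw [← hD] at hD1 hD0
  obtain ⟨U1, U2, hU1, hU1', hU2, hU2', hPP⟩ := hVT t (by linarith) (by linarith)
  obtain ⟨-, -, -, -, a5⟩ := hLT t (by linarith) (by linarith)
  obtain ⟨a1, a2⟩ := hIT t (by linarith) (by linarith)
  obtain ⟨q1, q2, q3, q4, q5⟩ := Pool.Agent.Q149.UM.kap_facts hK.cont hK.nonneg hki hk1 hC4 hb4 hD1
  -- almost all heights are not heights of zeros
  have hnull : ∀ᵐ y : ℝ, ∀ s ∈ ZD T, s.im ≠ t + y := by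
    have hfin : {y : ℝ | ¬ ∀ s ∈ ZD T, s.im ≠ t + y}.Finite := by
      refine ((ZD T).image (fun s => s.im - t)).finite_toSet.subset fun y hy => ?_
      simp only [Set.mem_setOf_eq] at hy
      push Not at hy
      obtain ⟨s, hs1, hs2⟩ := hy
      rw [Finset.mem_coe, Finset.mem_image]
      exact ⟨s, hs1, by linarith⟩
    rw [ae_iff]
    exact hfin.measure_zero volume
  have hne : ∀ s ∈ (ZD T).filter (fun s => |s.im - t| ≤ 1), t - s.im ≠ 0 := by
    intro s hs h
    exact hz s (Finset.mem_filter.1 hs).1 (by linarith)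
  have hcore := core (κ := fun y => D * k₀ (D * y)) (Z := fun y => az (t + y))
    (c := 6561 * C4 / D) (M := (∫ z, k₀ z * |z|) / D) (B := CI * Real.log T)
    (E := CI * Real.log T) (W := CL * Real.log T) (P := 2 * Real.pi) (a := U1 - t)
    (b := U2 - t) (K₃ := ∫ y : ℝ, 1 / (1 + |y|) ^ 4)
    (A := (ZD T).filter (fun s => |s.im - t| ≤ 1)) (m := fun s => (mz s : ℝ))
    (g := fun s y => Complex.arg ⟨1 / 2 - s.re, t - s.im⟩ -
      Complex.arg ⟨1 / 2 - s.re, t - s.im + y⟩)
    (by have := hK.cont; fun_prop) (fun y => mul_nonneg hD0.le (hK.nonneg _)) q1 q2 q3 q4 q5.le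
    (by linarith) (by linarith) (by positivity) (by positivity)
    ?_ (haz.comp (measurable_const_add t)) ?_ (fun s _ => Nat.cast_nonneg _) a5 ?_ ?_
    (by positivity) ?_ Pool.Agent.Q149.UM.int_pow4 le_rfl (by positivity)
  · -- conclusion
    have e1 : (∫ u in U1..U2, δ * Real.log T * k₀ (δ * Real.log T * (u - t)) * az u)
        = ∫ y in (U1 - t)..(U2 - t), D * k₀ (D * y) * az (t + y) := by
      rw [← intervalIntegral.integral_comp_sub_right
        (fun y => D * k₀ (D * y) * az (t + y)) t, hD]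
      refine intervalIntegral.integral_congr fun u _ => ?_
      show _ = δ * Real.log T * k₀ (δ * Real.log T * (u - t)) * az (t + (u - t))
      rw [add_sub_cancel]
    rw [e1] at hPP
    simp only [add_zero] at hcore
    have hSS : 0 ≤ SS δ T t := by
      unfold SS
      exact Finset.sum_nonneg fun s _ => by positivity
    have e2 : ∑ s ∈ (ZD T).filter (fun s => |s.im - t| ≤ 1), (mz s : ℝ) * ∫ y, D * k₀ (D * y) *
          (Complex.arg ⟨1 / 2 - s.re, t - s.im⟩ - Complex.arg ⟨1 / 2 - s.re, t - s.im + y⟩)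
        = ∑ s ∈ (ZD T).filter (fun s => |s.im - t| ≤ 1), (mz s : ℝ) *
          GA k₀ D (t - s.im) (1 / 2 - s.re) := rfl
    have e3 : CI * Real.log T * ((∫ z, k₀ z * |z|) / D) + (2 * (CI * Real.log T) +
        CL * Real.log T * (2 * Real.pi)) * (6561 * C4 / D * (∫ y : ℝ, 1 / (1 + |y|) ^ 4))
        = CI * (∫ z, k₀ z * |z|) / δ + (2 * CI + CL * (2 * Real.pi)) * (6561 * C4 *
          (∫ y : ℝ, 1 / (1 + |y|) ^ 4)) / δ := by
      rw [hD]
      field_simp
    rw [e3, e2] at hcore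
    have hpos : 0 ≤ CI * (∫ z, k₀ z * |z|) / δ + (2 * CI + CL * (2 * Real.pi)) * (6561 * C4 *
          (∫ y : ℝ, 1 / (1 + |y|) ^ 4)) / δ := by positivity
    obtain ⟨Q, hQ⟩ : ∃ Q : ℝ, Q = CI * (∫ z, k₀ z * |z|) / δ + (2 * CI + CL * (2 * Real.pi)) *
        (6561 * C4 * (∫ y : ℝ, 1 / (1 + |y|) ^ 4)) / δ := ⟨_, rfl⟩
    rw [← hQ] at hcore hpos ⊢
    have hQS : 0 ≤ Q * SS δ T t := mul_nonneg hpos hSS
    -- the sum over the zeros
    have hzs : |∑ s ∈ (ZD T).filter (fun s => |s.im - t| ≤ 1), (mz s : ℝ) *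
          GA k₀ D (t - s.im) (1 / 2 - s.re)| ≤ CG / δ ^ 2 * SS δ T t := by
      calc |∑ s ∈ (ZD T).filter (fun s => |s.im - t| ≤ 1), (mz s : ℝ) *
          GA k₀ D (t - s.im) (1 / 2 - s.re)|
          ≤ ∑ s ∈ (ZD T).filter (fun s => |s.im - t| ≤ 1), |(mz s : ℝ) *
          GA k₀ D (t - s.im) (1 / 2 - s.re)| := Finset.abs_sum_le_sum_abs _ _
        _ ≤ ∑ s ∈ (ZD T).filter (fun s => |s.im - t| ≤ 1), CG / δ ^ 2 * ((mz s : ℝ) *
            (Real.exp (2 * δ * (Real.log T * |s.re - 1 / 2|)) /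
              (1 + Real.log T * |s.im - t|) ^ 2)) := by
            refine Finset.sum_le_sum fun s hs => ?_
            have hgs := (hG D (t - s.im) (1 / 2 - s.re) hD1 (hne s hs)).2
            rw [abs_mul, Nat.abs_cast]
            have hmz : (0 : ℝ) ≤ (mz s : ℝ) := Nat.cast_nonneg _
            have hx : 0 ≤ |s.im - t| := abs_nonneg _
            have h1 : δ * (1 + Real.log T * |s.im - t|) ≤ 1 + D * |t - s.im| := by
              rw [hD, abs_sub_comm t]
              nlinarith [mul_nonneg hLp.le hx]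
            have h2 : (δ * (1 + Real.log T * |s.im - t|)) ^ 2 ≤ (1 + D * |t - s.im|) ^ 2 :=
              pow_le_pow_left₀ (by positivity) h1 2
            have h3 : CG / (1 + D * |t - s.im|) ^ 2
                ≤ CG / δ ^ 2 * (1 / (1 + Real.log T * |s.im - t|) ^ 2) := by
              calc CG / (1 + D * |t - s.im|) ^ 2
                  ≤ CG / (δ * (1 + Real.log T * |s.im - t|)) ^ 2 :=
                    div_le_div_of_nonneg_left hCG (by positivity) h2
                _ = CG / δ ^ 2 * (1 / (1 + Real.log T * |s.im - t|) ^ 2) := by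
                    rw [mul_pow]
                    field_simp
            have h4 : 1 ≤ Real.exp (2 * δ * (Real.log T * |s.re - 1 / 2|)) :=
              Real.one_le_exp (by positivity)
            have h5 : 1 / (1 + Real.log T * |s.im - t|) ^ 2 ≤
                Real.exp (2 * δ * (Real.log T * |s.re - 1 / 2|)) /
                  (1 + Real.log T * |s.im - t|) ^ 2 :=
              div_le_div_of_nonneg_right h4 (by positivity)
            have h6 : |GA k₀ D (t - s.im) (1 / 2 - s.re)| ≤ CG / δ ^ 2 *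
                (Real.exp (2 * δ * (Real.log T * |s.re - 1 / 2|)) /
                  (1 + Real.log T * |s.im - t|) ^ 2) :=
              (hgs.trans h3).trans (mul_le_mul_of_nonneg_left h5 (by positivity))
            calc (mz s : ℝ) * |GA k₀ D (t - s.im) (1 / 2 - s.re)|
                ≤ (mz s : ℝ) * (CG / δ ^ 2 *
                (Real.exp (2 * δ * (Real.log T * |s.re - 1 / 2|)) /
                  (1 + Real.log T * |s.im - t|) ^ 2)) := mul_le_mul_of_nonneg_left h6 hmz
              _ = _ := by ring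
        _ ≤ ∑ s ∈ ZD T, CG / δ ^ 2 * ((mz s : ℝ) *
            (Real.exp (2 * δ * (Real.log T * |s.re - 1 / 2|)) /
              (1 + Real.log T * |s.im - t|) ^ 2)) := by
            refine Finset.sum_le_sum_of_subset_of_nonneg (Finset.filter_subset _ _)
              fun s _ _ => by positivity
        _ = CG / δ ^ 2 * SS δ T t := by
            rw [← Finset.mul_sum]
            rfl
    obtain ⟨R, hR⟩ : ∃ R : ℝ, R = CG / δ ^ 2 := ⟨_, rfl⟩
    have hR0 : 0 ≤ R := by rw [hR]; positivity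
    rw [← hR] at hzs ⊢
    rw [abs_le] at hcore hPP hzs ⊢
    constructor
    · linarith [hcore.1, hPP.1, hzs.1]
    · linarith [hcore.2, hPP.2, hzs.2]
  · -- the value at `t`
    simp only [add_zero]
    exact a1 hz
  · -- almost everywhere bound
    filter_upwards [hnull] with y hy hyS
    exact (hIT (t + y) (by linarith [hyS.1]) (by linarith [hyS.2])).1 hy
  · -- arguments are bounded
    intro s _ y
    have h1 := Complex.abs_arg_le_pi ⟨1 / 2 - s.re, t - s.im⟩
    have h2 := Complex.abs_arg_le_pi ⟨1 / 2 - s.re, t - s.im + y⟩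
    rw [abs_le] at h1 h2 ⊢
    constructor
    · linarith [h1.1, h2.2]
    · linarith [h1.2, h2.1]
  · intro s hs
    exact (hG D (t - s.im) (1 / 2 - s.re) hD1 (hne s hs)).1
  · -- the remainder
    filter_upwards [hnull] with y hy hy8
    have h := a2 y hy8 fun s hs => ⟨hz s hs, hy s hs⟩
    have e : az (t + 0) - az (t + y) -
        ∑ s ∈ (ZD T).filter (fun s => |s.im - t| ≤ 1), (mz s : ℝ) *
          (Complex.arg ⟨1 / 2 - s.re, t - s.im⟩ - Complex.arg ⟨1 / 2 - s.re, t - s.im + y⟩)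
        = -((az (t + y) - az t) -
          ∑ s ∈ (ZD T).filter (fun s => |s.im - t| ≤ 1), (mz s : ℝ) *
          (Complex.arg ((1 / 2 + (t + y : ℝ) * I : ℂ) - s) -
            Complex.arg ((1 / 2 + t * I : ℂ) - s))) := by
      have e4 : ∑ s ∈ (ZD T).filter (fun s => |s.im - t| ≤ 1), (mz s : ℝ) *
          (Complex.arg ⟨1 / 2 - s.re, t - s.im⟩ - Complex.arg ⟨1 / 2 - s.re, t - s.im + y⟩)
          = - ∑ s ∈ (ZD T).filter (fun s => |s.im - t| ≤ 1), (mz s : ℝ) *
          (Complex.arg ((1 / 2 + (t + y : ℝ) * I : ℂ) - s) -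
            Complex.arg ((1 / 2 + t * I : ℂ) - s)) := by
        rw [← Finset.sum_neg_distrib]
        refine Finset.sum_congr rfl fun s _ => ?_
        have g1 : ((1 / 2 + t * I : ℂ) - s) = ⟨1 / 2 - s.re, t - s.im⟩ := by
          apply Complex.ext <;> simp
        have g2 : ((1 / 2 + (t + y : ℝ) * I : ℂ) - s) = ⟨1 / 2 - s.re, t - s.im + y⟩ := by
          apply Complex.ext
          · simp
          · simp
            ring
        rw [g1, g2]
        ring
      rw [e4, add_zero]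
      ring
    rw [e, abs_neg]
    exact h

end

end Pool.Agent.Run7.h299.AE
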